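import Pool.Agent.Helper10.RS.Goals

/-! # Packet COP of project RS: the coprime action lemma -/

set_option autoImplicit false

open MulAction

namespace Pool.Agent.Helper64.RS

open Pool.Agent.Helper10.RS

universe u

section
variable {G : Type u} [Group G] [Finite G] (K R : Subgroup G) [K.Normal]

theorem conj_map {H : Type u} [Group H] (φ : MulAut H) (t : H) :
    MulAut.conj (φ t) = φ * MulAut.conj t * φ⁻¹ := by
  ext x
  simp [MulAut.mul_apply, MulAut.conj_apply]

/-- An invariant Sylow subgroup. -/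
theorem inv_sylow (r q : ℕ) [Fact r.Prime] [Fact q.Prime] (hR : Nat.card R = r)
    (hrK : ¬ r ∣ Nat.card K) : ∃ U : Sylow q K, ∀ x ∈ R, MulAut.conjNormal (H := K) x • U = U := by
  let _ : MulAction R (Sylow q K) := MulAction.compHom _ ((MulAut.conjNormal (H := K)).comp R.subtype)
  have hp : IsPGroup r R := IsPGroup.of_card (n := 1) (by rw [hR, pow_one])
  have h1 : ¬ r ∣ Nat.card (Sylow q K) := by
    intro h
    have P : Sylow q K := default
    exact hrK (h.trans ((P.card_dvd_index).trans (Subgroup.index_dvd_card _)))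
  obtain ⟨U, hU⟩ := hp.nonempty_fixed_point_of_prime_not_dvd_card (Sylow q K) h1
  exact ⟨U, fun x hx => hU ⟨x, hx⟩⟩

/-- Two invariant Sylow subgroups are conjugate by a fixed point. -/
theorem conj_sylow (r q : ℕ) [Fact r.Prime] [Fact q.Prime] (hR : Nat.card R = r)
    (hrK : ¬ r ∣ Nat.card K) (U1 U2 : Sylow q K)
    (h1 : ∀ x ∈ R, MulAut.conjNormal (H := K) x • U1 = U1)
    (h2 : ∀ x ∈ R, MulAut.conjNormal (H := K) x • U2 = U2) :
    ∃ t : K, (∀ x ∈ R, x * (t : G) * x⁻¹ = t) ∧ MulAut.conj t • U1 = U2 := by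
  obtain ⟨t0, ht0⟩ := MulAction.exists_smul_eq K U1 U2
  have ht0' : MulAut.conj t0 • U1 = U2 := ht0
  let act : MulAction R {t : K // MulAut.conj t • U1 = U2} :=
    { smul := fun x t => ⟨MulAut.conjNormal (H := K) (x : G) t.1, by
        rw [conj_map, mul_smul, mul_smul]
        have e1 : (MulAut.conjNormal (H := K) (x : G))⁻¹ • U1 = U1 := by
          rw [inv_smul_eq_iff, h1 x x.2]
        rw [e1, t.2, h2 x x.2]⟩
      one_smul := fun t => by
        apply Subtype.ext
        change MulAut.conjNormal (H := K) ((1 : R) : G) t.1 = t.1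
        rw [Subgroup.coe_one, map_one]
        rfl
      mul_smul := fun x y t => by
        apply Subtype.ext
        change MulAut.conjNormal (H := K) ((x * y : R) : G) t.1 = _
        rw [Subgroup.coe_mul, map_mul]
        rfl }
  have hp : IsPGroup r R := IsPGroup.of_card (n := 1) (by rw [hR, pow_one])
  have hcard : Nat.card {t : K // MulAut.conj t • U1 = U2} = Nat.card (stabilizer K U1) := by
    refine Nat.card_congr ?_
    refine ⟨fun t => ⟨t0⁻¹ * t.1, ?_⟩, fun s => ⟨t0 * s.1, ?_⟩, ?_, ?_⟩
    · rw [mem_stabilizer_iff, mul_smul, inv_smul_eq_iff, ht0]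
      exact t.2
    · rw [map_mul, mul_smul]
      have : MulAut.conj (s : K) • U1 = U1 := s.2
      rw [this, ht0']
    · intro t
      apply Subtype.ext
      simp
    · intro s
      apply Subtype.ext
      simp
  have h3 : ¬ r ∣ Nat.card {t : K // MulAut.conj t • U1 = U2} := by
    rw [hcard]
    exact fun h => hrK (h.trans (Subgroup.card_subgroup_dvd_card _))
  obtain ⟨t, ht⟩ := hp.nonempty_fixed_point_of_prime_not_dvd_card _ h3
  refine ⟨t.1, fun x hx => ?_, t.2⟩
  have h4 := congrArg (fun z : {t : K // MulAut.conj t • U1 = U2} => ((z.1 : K) : G)) (ht ⟨x, hx⟩)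
  exact h4

end

theorem p_cop : COP.{u} := by
  intro hL G _ _ K R _ r hr hR hrK hconj hq
  have : Fact r.Prime := ⟨hr⟩
  -- a generator
  have hnt : ∃ g ∈ R, g ≠ 1 := by
    by_contra hcon
    push Not at hcon
    have : R = ⊥ := by
      rw [Subgroup.eq_bot_iff_forall]
      exact hcon
    rw [this, Subgroup.card_bot] at hR
    exact hr.one_lt.ne hR
  obtain ⟨g, hgR, hg1⟩ := hnt
  have hord : orderOf g = r := by
    have h1 : orderOf (⟨g, hgR⟩ : R) ∣ r := by
      rw [← hR]
      exact orderOf_dvd_natCard _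
    rw [Subgroup.orderOf_mk] at h1
    rcases (Nat.dvd_prime hr).1 h1 with h | h
    · exact absurd (orderOf_eq_one_iff.1 h) hg1
    · exact h
  have hRz : R = Subgroup.zpowers g := by
    symm
    apply Subgroup.eq_of_le_of_card_ge
    · rwa [Subgroup.zpowers_le]
    · rw [Nat.card_zpowers, hord, hR]
  -- enough: `K` centralizes `g`
  suffices hK : ∀ k ∈ K, g * k = k * g by
    rw [hRz, Subgroup.zpowers_le, Subgroup.mem_centralizer_iff]
    intro k hk
    exact (hK k hk).symm
  suffices htop : (Subgroup.centralizer {g}).subgroupOf K = ⊤ by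
    intro k hk
    have h1 : (⟨k, hk⟩ : K) ∈ (Subgroup.centralizer {g}).subgroupOf K := by
      rw [htop]
      exact Subgroup.mem_top _
    rw [Subgroup.mem_subgroupOf, Subgroup.mem_centralizer_iff] at h1
    exact h1 g rfl
  rw [← Subgroup.index_eq_one]
  by_contra hidx
  obtain ⟨q, hqp, hqd⟩ := Nat.exists_prime_and_dvd hidx
  have : Fact q.Prime := ⟨hqp⟩
  have hqK : q ∣ Nat.card K := hqd.trans (Subgroup.index_dvd_card _)
  have hqr : q ≠ r := by
    rintro rfl
    exact hrK hqK
  obtain ⟨U, hU⟩ := inv_sylow K R r q hR hrK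
  -- it suffices that `U` centralizes `g`
  suffices hUC : (U : Subgroup K) ≤ (Subgroup.centralizer {g}).subgroupOf K by
    exact U.not_dvd_index (hqd.trans (Subgroup.index_dvd_of_le hUC))
  set U' : Subgroup G := (U : Subgroup K).map K.subtype with hU'
  -- elements fixing `U` normalize `U'`
  have hnorm : ∀ y : G, MulAut.conjNormal (H := K) y • U = U →
      y ∈ Subgroup.normalizer (U' : Set G) := by
    intro y hy
    have h1 : ∀ z : G, MulAut.conjNormal (H := K) z • U = U → ∀ u ∈ U', z * u * z⁻¹ ∈ U' := by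
      intro z hz u hu
      obtain ⟨v, hv, rfl⟩ := Subgroup.mem_map.1 hu
      refine Subgroup.mem_map.2 ⟨MulAut.conjNormal (H := K) z v, ?_, rfl⟩
      have h2 : MulAut.conjNormal (H := K) z • v ∈
          ((MulAut.conjNormal (H := K) z • U : Sylow q K) : Subgroup K) := by
        rw [Sylow.pointwise_smul_def]
        exact Subgroup.smul_mem_pointwise_smul v _ _ hv
      rw [hz] at h2
      exact h2
    have hy' : MulAut.conjNormal (H := K) y⁻¹ • U = U := by
      rw [map_inv, inv_smul_eq_iff, hy]
    rw [Subgroup.mem_normalizer_iff]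
    intro u
    constructor
    · exact h1 y hy u
    · intro h
      have := h1 y⁻¹ hy' _ h
      simpa [mul_assoc] using this
  have hgN : g ∈ Subgroup.normalizer (U' : Set G) := hnorm g (hU g hgR)
  -- conjugation in the normalizer
  have hcN : ∀ i : ℕ, 0 < i → i < r →
      ∃ y ∈ Subgroup.normalizer (U' : Set G), y * g * y⁻¹ = g ^ i := by
    intro i hi0 hir
    have hgi : g ^ i ≠ 1 := by
      intro h
      have := orderOf_dvd_of_pow_eq_one h
      rw [hord] at this
      exact absurd (Nat.le_of_dvd hi0 this) (by omega)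
    obtain ⟨n, hn⟩ := hconj g hgR (g ^ i) (R.pow_mem hgR i) hg1 hgi
    -- `n` normalizes `R`
    have hnR : ∀ x ∈ R, n⁻¹ * x * n ∈ R := by
      have hmap : R.map (MulAut.conj n).toMonoidHom ≤ R := by
        rintro z ⟨x, hx, rfl⟩
        rw [hRz] at hx
        obtain ⟨m, rfl⟩ := Subgroup.mem_zpowers_iff.1 hx
        change MulAut.conj n (g ^ m) ∈ R
        rw [map_zpow, MulAut.conj_apply, hn]
        exact R.zpow_mem (R.pow_mem hgR i) m
      have heq : R.map (MulAut.conj n).toMonoidHom = R := by
        apply Subgroup.eq_of_le_of_card_ge hmap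
        exact (Nat.card_congr (R.equivMapOfInjective (MulAut.conj n).toMonoidHom
          (MulAut.conj n).injective).toEquiv).le
      intro x hx
      rw [← heq] at hx
      obtain ⟨y, hy, hyx⟩ := hx
      have : n * y * n⁻¹ = x := hyx
      rw [← this]
      simpa [mul_assoc] using hy
    have hnU : ∀ x ∈ R, MulAut.conjNormal (H := K) x • (MulAut.conjNormal (H := K) n • U) =
        MulAut.conjNormal (H := K) n • U := by
      intro x hx
      have h1 := hU _ (hnR x hx)
      rw [← mul_smul, ← map_mul, show x * n = n * (n⁻¹ * x * n) by group, map_mul, mul_smul, h1]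
    obtain ⟨t, ht1, ht2⟩ := conj_sylow K R r q hR hrK (MulAut.conjNormal (H := K) n • U) U hnU hU
    refine ⟨(t : G) * n, hnorm _ ?_, ?_⟩
    · rw [map_mul, mul_smul, MulAut.conjNormal_val]
      exact ht2
    · have h3 := ht1 (g ^ i) (R.pow_mem hgR i)
      have h4 : g ^ i * (t : G) = t * g ^ i := by
        rw [mul_inv_eq_iff_eq_mul] at h3
        exact h3
      calc (t : G) * n * g * ((t : G) * n)⁻¹ = t * (n * g * n⁻¹) * (t : G)⁻¹ := by group
        _ = t * g ^ i * (t : G)⁻¹ := by rw [hn]
        _ = g ^ i := by rw [← h4]; group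
  have hcardU : Nat.card U' = Nat.card U := by
    rw [hU']
    exact (Nat.card_congr ((U : Subgroup K).equivMapOfInjective _ K.subtype_injective).toEquiv).symm
  have hcU : Nat.card U' ∣ Nat.card K := by
    rw [hcardU]
    exact Subgroup.card_subgroup_dvd_card _
  have hpU : IsPGroup q U' := by
    rw [hU']
    exact U.2.map K.subtype
  have key := hL (Subgroup.normalizer (U' : Set G)) U' q r ⟨g, hgN⟩ hqp hr hqr hpU
    (by rw [Subgroup.orderOf_mk, hord])
    (by
      intro i hi0 hir
      obtain ⟨y, hy, hyg⟩ := hcN i hi0 hir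
      refine ⟨⟨y, hy⟩, ?_⟩
      apply Subtype.ext
      exact hyg)
    (fun h => hq q hqp (h.trans hcU))
  intro v hv
  rw [Subgroup.mem_subgroupOf, Subgroup.mem_centralizer_iff]
  intro x hx
  rw [Set.mem_singleton_iff] at hx
  subst hx
  have h1 := key ⟨(v : G), Subgroup.mem_map.2 ⟨v, hv, rfl⟩⟩
  have h2 : x * (v : G) * x⁻¹ = v := congrArg Subtype.val h1
  rw [mul_inv_eq_iff_eq_mul] at h2
  exact h2

end Pool.Agent.Helper64.RS
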