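import Pool.Agent.Helper38.RS.Goals3
import Mathlib.NumberTheory.RamificationInertia.Valuation
import Mathlib.NumberTheory.RamificationInertia.Galois

/-!
# Project RS: splitting in a quadratic extension (packet RS-SPL)
-/

namespace Pool.Agent.Helper64.RS

open NumberField Polynomial Module IsDedekindDomain Pool.Agent.Helper38.RS
open scoped Pointwise

/-- The valuation statement: everything extends from `v` to `w` above `v`. -/
theorem ext_part {F E : Type} [Field F] [NumberField F] [Field E] [NumberField E] [Algebra F E]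
    (v : HeightOneSpectrum (𝓞 F)) (h2 : v.valuation F 2 = 1) (w : HeightOneSpectrum (𝓞 E))
    (hw : w.asIdeal.comap (algebraMap (𝓞 F) (𝓞 E)) = v.asIdeal) :
    w.valuation E 2 = 1 ∧ ∀ y : F, LocSq v y → LocSq w (algebraMap F E y) := by
  have : w.asIdeal.LiesOver v.asIdeal := ⟨hw.symm⟩
  have he : v.asIdeal.ramificationIdx' w.asIdeal ≠ 0 :=
    Ideal.IsDedekindDomain.ramificationIdx'_ne_zero_of_liesOver w.asIdeal v.ne_bot
  refine ⟨?_, ?_⟩
  · have h := HeightOneSpectrum.valuation_liesOver (K := F) E v w (2 : F)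
    rw [h2, one_pow] at h
    rw [← map_ofNat (algebraMap F E) 2]
    exact h.symm
  · rintro y ⟨t, ht⟩
    refine ⟨algebraMap F E t, ?_⟩
    have h := HeightOneSpectrum.valuation_liesOver (K := F) E v w (y * t ^ 2 - 1)
    have e : algebraMap F E y * algebraMap F E t ^ 2 - 1 =
        algebraMap F E (y * t ^ 2 - 1) := by
      rw [map_sub, map_mul, map_pow, map_one]
    rw [e, ← h]
    exact pow_lt_one₀ zero_le ht he

/-- Two distinct primes above `v` in a quadratic extension: the norms are that of `v`. -/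
theorem norm_part {F E : Type} [Field F] [NumberField F] [Field E] [NumberField E] [Algebra F E]
    (hfin : finrank F E = 2) (v : HeightOneSpectrum (𝓞 F)) (P Q : Ideal (𝓞 E)) [P.IsPrime]
    [Q.IsPrime] [P.LiesOver v.asIdeal] [Q.LiesOver v.asIdeal] (hPQ : P ≠ Q) :
    Ideal.absNorm P = Ideal.absNorm v.asIdeal := by
  have hmax : v.asIdeal.IsMaximal := v.isMaximal
  have hP : P ∈ IsDedekindDomain.primesOverFinset v.asIdeal (𝓞 E) :=
    (IsDedekindDomain.mem_primesOverFinset_iff v.ne_bot _).mpr ⟨inferInstance, inferInstance⟩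
  have hQ : Q ∈ IsDedekindDomain.primesOverFinset v.asIdeal (𝓞 E) :=
    (IsDedekindDomain.mem_primesOverFinset_iff v.ne_bot _).mpr ⟨inferInstance, inferInstance⟩
  have hsum := Ideal.sum_ramification_inertia (𝓞 E) F E (p := v.asIdeal) v.ne_bot
  rw [hfin, ← Finset.add_sum_erase _ _ hP] at hsum
  have hQ' : Q ∈ (IsDedekindDomain.primesOverFinset v.asIdeal (𝓞 E)).erase P :=
    Finset.mem_erase.mpr ⟨hPQ.symm, hQ⟩
  rw [← Finset.add_sum_erase _ _ hQ'] at hsum
  have e1 : v.asIdeal.ramificationIdx' P ≠ 0 :=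
    Ideal.IsDedekindDomain.ramificationIdx'_ne_zero_of_liesOver P v.ne_bot
  have e2 : v.asIdeal.ramificationIdx' Q ≠ 0 :=
    Ideal.IsDedekindDomain.ramificationIdx'_ne_zero_of_liesOver Q v.ne_bot
  have f1 : v.asIdeal.inertiaDeg' P ≠ 0 := Ideal.inertiaDeg'_ne_zero v.asIdeal P
  have f2 : v.asIdeal.inertiaDeg' Q ≠ 0 := Ideal.inertiaDeg'_ne_zero v.asIdeal Q
  have g1 : 1 ≤ v.asIdeal.ramificationIdx' Q * v.asIdeal.inertiaDeg' Q :=
    Nat.one_le_iff_ne_zero.mpr (mul_ne_zero e2 f2)
  have g2 : v.asIdeal.inertiaDeg' P ≤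
      v.asIdeal.ramificationIdx' P * v.asIdeal.inertiaDeg' P :=
    Nat.le_mul_of_pos_left _ (Nat.pos_of_ne_zero e1)
  have hf : v.asIdeal.inertiaDeg' P = 1 := by omega
  rw [Ideal.absNorm_eq_pow_inertiaDeg'_of_liesOver P v.asIdeal v.isPrime v.ne_bot, hf, pow_one]

theorem s_spl : S_SPL := by
  intro F E _ _ _ _ _ x r hfin hr hx v hv2 hvx
  refine ⟨?_, fun w hw ↦ ext_part v hv2 w hw⟩
  have : Algebra.IsQuadraticExtension F E := ⟨hfin⟩
  have : IsGalois F E := inferInstance
  obtain ⟨g, hg⟩ : ∃ g : Gal(E/F), g r = -r := by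
    by_contra hcon
    push Not at hcon
    have hfix : ∀ g : Gal(E/F), g r = r := by
      intro g
      have h1 : (g r) ^ 2 = r ^ 2 := by
        rw [← map_pow, hr]
        exact g.commutes x
      rcases sq_eq_sq_iff_eq_or_eq_neg.mp h1 with h | h
      · exact h
      · exact absurd h (hcon g)
    obtain ⟨y, hy⟩ := (IsGalois.mem_bot_iff_fixed (F := F) (E := E) r).mpr hfix
    apply hx
    refine ⟨y, ?_⟩
    apply (algebraMap F E).injective
    rw [map_pow, ← hr, ← hy]
    rfl
  obtain ⟨y, hy⟩ := hvx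
  have hval : v.valuation F (x * y ^ 2) ≤ 1 := by
    have e : x * y ^ 2 = (x * y ^ 2 - 1) + 1 := by ring
    rw [e]
    refine le_trans (Valuation.map_add _ _ _) (max_le hy.le ?_)
    rw [map_one]
  obtain ⟨n, ⟨d, hd⟩, hnd⟩ := v.exists_primeCompl_mul_eq_of_integer (x * y ^ 2) hval
  simp only at hnd
  have hdv : d ∉ v.asIdeal := hd
  -- `n - d` is in `v`
  have hnd2 : n - d ∈ v.asIdeal := by
    rw [← v.valuation_lt_one_iff_mem (K := F)]
    have e : algebraMap (𝓞 F) F (n - d) = (x * y ^ 2 - 1) * algebraMap (𝓞 F) F d := by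
      rw [map_sub, ← hnd]; ring
    change v.valuation F (algebraMap (𝓞 F) F (n - d)) < 1
    rw [e, map_mul]
    refine lt_of_le_of_lt (mul_le_mul' le_rfl (v.valuation_le_one d)) ?_
    rwa [mul_one]
  -- the integer `b = d r y`
  set z : E := algebraMap F E (algebraMap (𝓞 F) F d) * (r * algebraMap F E y) with hz
  have hz2 : z ^ 2 = algebraMap F E (algebraMap (𝓞 F) F (d * n)) := by
    have e : z ^ 2 = algebraMap F E (algebraMap (𝓞 F) F d) *
        (algebraMap F E (algebraMap (𝓞 F) F d) * (r ^ 2 * algebraMap F E y ^ 2)) := by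
      rw [hz]; ring
    rw [e, hr, map_mul, map_mul, ← hnd, map_mul, map_mul, map_pow]
    ring
  have hzint : IsIntegral ℤ z := by
    refine IsIntegral.of_pow (n := 2) (by norm_num) ?_
    rw [hz2]
    exact ((RingOfIntegers.isIntegral_coe (d * n)).map
      ((algebraMap F E).toIntAlgHom))
  set b : 𝓞 E := ⟨z, hzint⟩ with hb
  set dE : 𝓞 E := algebraMap (𝓞 F) (𝓞 E) d with hdE
  have hdEc : (dE : E) = algebraMap F E (algebraMap (𝓞 F) F d) := by
    rw [hdE]; rfl
  have hgb : g • b = -b := by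
    apply RingOfIntegers.ext
    show g z = -z
    rw [hz, map_mul, map_mul, hg, g.commutes, g.commutes]
    ring
  have hgd : g • dE = dE := by
    apply RingOfIntegers.ext
    show g (dE : E) = (dE : E)
    rw [hdEc, g.commutes]
  have hprod : (b - dE) * (b + dE) = algebraMap (𝓞 F) (𝓞 E) (d * (n - d)) := by
    apply RingOfIntegers.ext
    have e1 : (((b - dE) * (b + dE) : 𝓞 E) : E) = z ^ 2 - (dE : E) ^ 2 := by
      have : (((b - dE) * (b + dE) : 𝓞 E) : E) = (z - (dE : E)) * (z + (dE : E)) := rfl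
      rw [this]; ring
    have e2 : ((algebraMap (𝓞 F) (𝓞 E) (d * (n - d)) : 𝓞 E) : E) =
        algebraMap F E (algebraMap (𝓞 F) F (d * (n - d))) := rfl
    rw [e1, e2, hz2, hdEc]
    simp only [map_mul, map_sub]
    ring
  -- a prime above `v`
  obtain ⟨⟨P, hPp, hPo⟩⟩ := v.asIdeal.nonempty_primesOver (S := 𝓞 E)
  have hv2' : (2 : 𝓞 F) ∉ v.asIdeal := by
    intro h
    rw [← v.valuation_lt_one_iff_mem (K := F)] at h
    change v.valuation F (algebraMap (𝓞 F) F 2) < 1 at h
    rw [map_ofNat, hv2] at h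
    exact lt_irrefl _ h
  have h2d : (2 : 𝓞 F) * d ∉ v.asIdeal := by
    intro h
    rcases v.isPrime.mem_or_mem h with h | h
    · exact hv2' h
    · exact hdv h
  have h2dP : algebraMap (𝓞 F) (𝓞 E) (2 * d) ∉ P := by
    intro h
    apply h2d
    rw [hPo.over]
    exact h
  have hprodP : (b - dE) * (b + dE) ∈ P := by
    rw [hprod]
    have h : d * (n - d) ∈ v.asIdeal := v.asIdeal.mul_mem_left _ hnd2
    rw [hPo.over] at h
    exact h
  have hPne : P ≠ ⊥ := Ideal.ne_bot_of_liesOver_of_ne_bot v.ne_bot P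
  have hne : P ≠ g • P := by
    intro heq
    have key : b - dE ∈ P ↔ b + dE ∈ P := by
      constructor
      · intro h
        have h' : g • (b - dE) ∈ g • P := Ideal.smul_mem_pointwise_smul g _ P h
        rw [← heq, smul_sub, hgb, hgd] at h'
        have e : b + dE = -(-b - dE) := by ring
        rw [e]
        exact P.neg_mem h'
      · intro h
        have h' : g • (b + dE) ∈ g • P := Ideal.smul_mem_pointwise_smul g _ P h
        rw [← heq, smul_add, hgb, hgd] at h'
        have e : b - dE = -(-b + dE) := by ring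
        rw [e]
        exact P.neg_mem h'
    have hboth : b - dE ∈ P ∧ b + dE ∈ P := by
      rcases hPp.mem_or_mem hprodP with h | h
      · exact ⟨h, key.mp h⟩
      · exact ⟨key.mpr h, h⟩
    apply h2dP
    have e : algebraMap (𝓞 F) (𝓞 E) (2 * d) = (b + dE) - (b - dE) := by
      rw [map_mul, map_ofNat, ← hdE]; ring
    rw [e]
    exact P.sub_mem hboth.2 hboth.1
  have hQo : (g • P).LiesOver v.asIdeal := inferInstance
  have hQp : (g • P).IsPrime := inferInstance
  have hQne : g • P ≠ ⊥ := Ideal.ne_bot_of_liesOver_of_ne_bot v.ne_bot (g • P)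
  refine ⟨⟨P, hPp, hPne⟩, ⟨g • P, hQp, hQne⟩, ?_, hPo.over.symm, hQo.over.symm,
    norm_part hfin v P (g • P) hne, norm_part hfin v (g • P) P hne.symm⟩
  intro h
  exact hne (congrArg HeightOneSpectrum.asIdeal h)

end Pool.Agent.Helper64.RS
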